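import Mathlib

/-!
# 3-extremal split graphs with many distinct degrees

Let `N : S → Finset P` be a family of blocks such that every point of `P` lies in exactly `l ^ 2`
blocks and every two distinct points lie in exactly `l` common blocks (block sizes are arbitrary).
Join every two points, and join the block `s` to its points. The resulting split graph has the
eigenvalues `|P| - 1 + l`, `l - 1`, `-l` and (if some nonzero signed combination of blocks
vanishes) `0`, and no others.

For `P = Fin (k + 2)` take all nonempty subsets of `P` once, the whole set `P` one more time, and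
`4 ^ k` further copies of every singleton; here `l = 2 ^ k + 1`. The blocks have all sizes
`1, …, k + 2`.
-/

set_option autoImplicit false

open Finset

namespace Pool.Agent.Results.MP_6460d1_co.ManyDegrees

section general

variable {P S : Type} [Fintype P] [DecidableEq P] [Fintype S] [DecidableEq S]

/-- the split graph of a block family: the points form a clique, the blocks are independent, and a
block is adjacent to its points -/
def blockGraph (N : S → Finset P) : SimpleGraph (P ⊕ S) where
  Adj a b := match a, b with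
    | Sum.inl x, Sum.inl y => x ≠ y
    | Sum.inl x, Sum.inr s => x ∈ N s
    | Sum.inr s, Sum.inl x => x ∈ N s
    | Sum.inr _, Sum.inr _ => False
  symm := ⟨by
    rintro (x | s) (y | t) h
    · exact fun h' => h h'.symm
    · exact h
    · exact h
    · exact h⟩
  loopless := ⟨by
    rintro (x | s) h
    · exact h rfl
    · exact h⟩

variable (N : S → Finset P)

instance : DecidableRel (blockGraph N).Adj := by
  rintro (x | s) (y | t)
  · exact inferInstanceAs (Decidable (x ≠ y))
  · exact inferInstanceAs (Decidable (x ∈ N t))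
  · exact inferInstanceAs (Decidable (y ∈ N s))
  · exact inferInstanceAs (Decidable False)

theorem adj_ll (x y : P) : (blockGraph N).Adj (Sum.inl x) (Sum.inl y) ↔ x ≠ y := Iff.rfl
theorem adj_lr (x : P) (s : S) : (blockGraph N).Adj (Sum.inl x) (Sum.inr s) ↔ x ∈ N s := Iff.rfl
theorem adj_rl (x : P) (s : S) : (blockGraph N).Adj (Sum.inr s) (Sum.inl x) ↔ x ∈ N s := Iff.rfl
theorem adj_rr (s t : S) : (blockGraph N).Adj (Sum.inr s) (Sum.inr t) ↔ False := Iff.rfl

theorem mulVec_inl (v : P ⊕ S → ℝ) (x : P) :
    ((blockGraph N).adjMatrix ℝ).mulVec v (Sum.inl x)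
      = (∑ y, v (Sum.inl y) - v (Sum.inl x)) + ∑ s, (if x ∈ N s then v (Sum.inr s) else 0) := by
  simp only [Matrix.mulVec, dotProduct, SimpleGraph.adjMatrix_apply, Fintype.sum_sum_type,
    adj_ll, adj_lr, ite_mul, one_mul, zero_mul]
  congr 1
  have : ∀ y, (if x ≠ y then v (Sum.inl y) else 0)
      = v (Sum.inl y) - (if y = x then v (Sum.inl y) else 0) := by
    intro y
    by_cases h : y = x
    · subst h; simp
    · rw [if_pos (Ne.symm h), if_neg h, sub_zero]
  simp_rw [this]
  rw [Finset.sum_sub_distrib]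
  simp

theorem mulVec_inr (v : P ⊕ S → ℝ) (s : S) :
    ((blockGraph N).adjMatrix ℝ).mulVec v (Sum.inr s) = ∑ x ∈ N s, v (Sum.inl x) := by
  simp only [Matrix.mulVec, dotProduct, SimpleGraph.adjMatrix_apply, Fintype.sum_sum_type,
    adj_rl, adj_rr, ite_mul, one_mul, zero_mul, if_false, Finset.sum_const_zero, add_zero]
  rw [← Finset.sum_filter]
  congr 1
  ext x; simp

variable {N} {l : ℕ} (hr : ∀ x, (univ.filter fun s => x ∈ N s).card = l ^ 2)
  (hl : ∀ x y, x ≠ y → (univ.filter fun s => x ∈ N s ∧ y ∈ N s).card = l)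

include hr hl

/-- `B Bᵀ = (l ^ 2 - l) I + l J` -/
theorem bbt (f : P → ℝ) (x : P) :
    ∑ s, (if x ∈ N s then ∑ y ∈ N s, f y else 0)
      = ((l : ℝ) ^ 2 - l) * f x + l * ∑ y, f y := by
  have h1 : ∀ s, (if x ∈ N s then ∑ y ∈ N s, f y else 0)
      = ∑ y, (if x ∈ N s ∧ y ∈ N s then f y else 0) := by
    intro s
    by_cases h : x ∈ N s
    · rw [if_pos h, ← Finset.sum_filter]
      congr 1
      ext y; simp [h]
    · rw [if_neg h]
      symm
      apply Finset.sum_eq_zero
      intro y _
      rw [if_neg (fun h' => h h'.1)]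
  simp_rw [h1]
  rw [Finset.sum_comm]
  have h2 : ∀ y, ∑ s, (if x ∈ N s ∧ y ∈ N s then f y else 0)
      = (if y = x then ((l : ℝ) ^ 2 - l) * f y else 0) + l * f y := by
    intro y
    rw [← Finset.sum_filter, Finset.sum_const, nsmul_eq_mul]
    by_cases h : y = x
    · subst h
      rw [if_pos rfl]
      simp only [and_self]
      rw [hr y]
      push_cast
      ring
    · rw [if_neg h, hl x y (Ne.symm h), zero_add]
  simp_rw [h2]
  rw [Finset.sum_add_distrib, ← Finset.mul_sum]
  simp

/-- every eigenvalue is one of the four -/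
theorem eig_mem {θ : ℝ} {v : P ⊕ S → ℝ} (hv : v ≠ 0)
    (h : ((blockGraph N).adjMatrix ℝ).mulVec v = θ • v) :
    θ = (Fintype.card P : ℝ) - 1 + l ∨ θ = (l : ℝ) - 1 ∨ θ = -(l : ℝ) ∨ θ = 0 := by
  by_cases h0 : θ = 0
  · exact Or.inr (Or.inr (Or.inr h0))
  by_cases hl' : θ = -(l : ℝ)
  · exact Or.inr (Or.inr (Or.inl hl'))
  have e1 : ∀ x, θ * v (Sum.inl x)
      = (∑ y, v (Sum.inl y) - v (Sum.inl x)) + ∑ s, (if x ∈ N s then v (Sum.inr s) else 0) := by
    intro x
    rw [← mulVec_inl, h]; rfl
  have e2 : ∀ s, θ * v (Sum.inr s) = ∑ x ∈ N s, v (Sum.inl x) := by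
    intro s
    rw [← mulVec_inr, h]; rfl
  set X := ∑ y, v (Sum.inl y) with hX
  have e3 : ∀ x, (θ + l) * ((θ + 1 - l) * v (Sum.inl x)) = (θ + l) * X := by
    intro x
    have h1 := e1 x
    have h2 : ∑ s, (if x ∈ N s then ∑ y ∈ N s, v (Sum.inl y) else 0)
        = θ * ∑ s, (if x ∈ N s then v (Sum.inr s) else 0) := by
      rw [Finset.mul_sum]
      refine Finset.sum_congr rfl fun s _ => ?_
      split_ifs
      · rw [e2]
      · rw [mul_zero]
    rw [bbt hr hl (fun y => v (Sum.inl y)) x] at h2
    have h3 : ∑ s, (if x ∈ N s then v (Sum.inr s) else 0)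
        = θ * v (Sum.inl x) - (X - v (Sum.inl x)) := by linarith
    rw [h3] at h2
    linear_combination -h2
  have hne : θ + l ≠ 0 := fun h' => hl' (by linarith)
  have e4 : ∀ x, (θ + 1 - l) * v (Sum.inl x) = X := fun x => mul_left_cancel₀ hne (e3 x)
  have e5 : (θ + 1 - l) * X = (Fintype.card P : ℝ) * X := by
    have : ∑ x, (θ + 1 - l) * v (Sum.inl x) = ∑ _x : P, X := Finset.sum_congr rfl fun x _ => e4 x
    rw [← Finset.mul_sum, Finset.sum_const, nsmul_eq_mul, Finset.card_univ] at this
    exact this
  by_cases hX0 : X = 0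
  · -- then x = 0 or θ = l - 1
    by_cases hθ : θ = (l : ℝ) - 1
    · exact Or.inr (Or.inl hθ)
    · exfalso
      have h1 : ∀ x, v (Sum.inl x) = 0 := by
        intro x
        have := e4 x
        rw [hX0] at this
        rcases mul_eq_zero.1 this with h' | h'
        · exact absurd (by linarith) hθ
        · exact h'
      have h2 : ∀ s, v (Sum.inr s) = 0 := by
        intro s
        have := e2 s
        rw [Finset.sum_eq_zero (fun x _ => h1 x)] at this
        exact (mul_eq_zero.1 this).resolve_left h0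
      apply hv
      ext (x | s)
      · exact h1 x
      · exact h2 s
  · left
    have := mul_right_cancel₀ hX0 e5
    linarith

/-- `|P| - 1 + l` is an eigenvalue -/
theorem eig_top [Nonempty P] (hl0 : 0 < l) : ∃ v : P ⊕ S → ℝ, v ≠ 0 ∧
    ((blockGraph N).adjMatrix ℝ).mulVec v = ((Fintype.card P : ℝ) - 1 + l) • v := by
  set θ : ℝ := (Fintype.card P : ℝ) - 1 + l with hθ
  have hp : (1 : ℝ) ≤ Fintype.card P := by exact_mod_cast Fintype.card_pos
  have hl1 : (1 : ℝ) ≤ l := by exact_mod_cast hl0
  have hθ0 : θ ≠ 0 := by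
    rw [hθ]; intro h; linarith
  refine ⟨Sum.elim (fun _ => 1) (fun s => ((N s).card : ℝ) / θ), ?_, ?_⟩
  · intro h
    have := congrFun h (Sum.inl (Classical.arbitrary P))
    simp at this
  · ext (x | s)
    · rw [mulVec_inl]
      simp only [Sum.elim_inl, Sum.elim_inr, Pi.smul_apply, smul_eq_mul, mul_one]
      have h1 := bbt hr hl (fun _ => (1 : ℝ)) x
      have h2 : ∑ s, (if x ∈ N s then ((N s).card : ℝ) / θ else 0)
          = (∑ s, (if x ∈ N s then ∑ y ∈ N s, (1 : ℝ) else 0)) / θ := by
        rw [Finset.sum_div]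
        refine Finset.sum_congr rfl fun s _ => ?_
        split_ifs
        · simp
        · simp
      rw [h2, h1]
      simp only [Finset.sum_const, Finset.card_univ, nsmul_eq_mul, mul_one]
      field_simp
      rw [hθ]
      ring
    · rw [mulVec_inr]
      simp only [Sum.elim_inl, Sum.elim_inr, Pi.smul_apply, smul_eq_mul, Finset.sum_const,
        nsmul_eq_mul, mul_one]
      field_simp

/-- `-l` is an eigenvalue -/
theorem eig_neg [Nonempty P] (hl0 : 0 < l) : ∃ v : P ⊕ S → ℝ, v ≠ 0 ∧
    ((blockGraph N).adjMatrix ℝ).mulVec v = (-(l : ℝ)) • v := by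
  have hl1 : (l : ℝ) ≠ 0 := by exact_mod_cast hl0.ne'
  refine ⟨Sum.elim (fun _ => 1) (fun s => -((N s).card : ℝ) / l), ?_, ?_⟩
  · intro h
    have := congrFun h (Sum.inl (Classical.arbitrary P))
    simp at this
  · ext (x | s)
    · rw [mulVec_inl]
      simp only [Sum.elim_inl, Sum.elim_inr, Pi.smul_apply, smul_eq_mul, mul_one]
      have h1 := bbt hr hl (fun _ => (1 : ℝ)) x
      have h2 : ∑ s, (if x ∈ N s then -((N s).card : ℝ) / l else 0)
          = -(∑ s, (if x ∈ N s then ∑ y ∈ N s, (1 : ℝ) else 0)) / l := by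
        rw [← Finset.sum_neg_distrib, Finset.sum_div]
        refine Finset.sum_congr rfl fun s _ => ?_
        split_ifs
        · simp
        · simp
      rw [h2, h1]
      simp only [Finset.sum_const, Finset.card_univ, nsmul_eq_mul, mul_one]
      field_simp
      ring
    · rw [mulVec_inr]
      simp only [Sum.elim_inl, Sum.elim_inr, Pi.smul_apply, smul_eq_mul, Finset.sum_const,
        nsmul_eq_mul, mul_one]
      field_simp

/-- `l - 1` is an eigenvalue -/
theorem eig_mid {a b : P} (hab : a ≠ b) (hl0 : 1 < l) : ∃ v : P ⊕ S → ℝ, v ≠ 0 ∧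
    ((blockGraph N).adjMatrix ℝ).mulVec v = ((l : ℝ) - 1) • v := by
  have hl1 : (l : ℝ) - 1 ≠ 0 := by
    have : (1 : ℝ) < l := by exact_mod_cast hl0
    intro h; linarith
  set f : P → ℝ := fun x => (if x = a then 1 else 0) - (if x = b then 1 else 0) with hf
  have hfs : ∑ x, f x = 0 := by
    rw [hf, Finset.sum_sub_distrib]; simp
  refine ⟨Sum.elim f (fun s => (∑ x ∈ N s, f x) / ((l : ℝ) - 1)), ?_, ?_⟩
  · intro h
    have := congrFun h (Sum.inl a)
    simp [hf, hab] at this
  · ext (x | s)
    · rw [mulVec_inl]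
      simp only [Sum.elim_inl, Sum.elim_inr, Pi.smul_apply, smul_eq_mul]
      have h1 := bbt hr hl f x
      have h2 : ∑ s, (if x ∈ N s then (∑ x ∈ N s, f x) / ((l : ℝ) - 1) else 0)
          = (∑ s, (if x ∈ N s then ∑ y ∈ N s, f y else 0)) / ((l : ℝ) - 1) := by
        rw [Finset.sum_div]
        refine Finset.sum_congr rfl fun s _ => ?_
        split_ifs
        · rfl
        · simp
      rw [h2, h1, hfs]
      field_simp
      ring
    · rw [mulVec_inr]
      simp only [Sum.elim_inl, Sum.elim_inr, Pi.smul_apply, smul_eq_mul]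
      field_simp

omit hr hl in
/-- `0` is an eigenvalue if two blocks coincide -/
theorem eig_zero {s t : S} (hst : s ≠ t) (hN : N s = N t) : ∃ v : P ⊕ S → ℝ, v ≠ 0 ∧
    ((blockGraph N).adjMatrix ℝ).mulVec v = (0 : ℝ) • v := by
  refine ⟨Sum.elim (fun _ => 0) (fun r => (if r = s then 1 else 0) - (if r = t then 1 else 0)),
    ?_, ?_⟩
  · intro h
    have := congrFun h (Sum.inr s)
    simp [hst] at this
  · ext (x | r)
    · rw [mulVec_inl]
      simp only [Sum.elim_inl, Sum.elim_inr, zero_smul, Pi.zero_apply, Finset.sum_const_zero,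
        sub_zero, zero_add]
      have : ∀ r, (if x ∈ N r then ((if r = s then (1 : ℝ) else 0) - (if r = t then 1 else 0))
          else 0) = (if r = s then (if x ∈ N s then 1 else 0) else 0)
            - (if r = t then (if x ∈ N t then 1 else 0) else 0) := by
        intro r
        by_cases h1 : r = s
        · subst h1
          simp [hst]
        · by_cases h2 : r = t
          · subst h2
            by_cases hx : x ∈ N r <;> simp [h1, hx]
          · simp [h1, h2]
      simp_rw [this]
      rw [Finset.sum_sub_distrib, hN]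
      simp
    · rw [mulVec_inr]
      simp

/-- the set of eigenvalues -/
theorem spectrum_eq {a b : P} (hab : a ≠ b) (hl0 : 1 < l) {s t : S} (hst : s ≠ t)
    (hN : N s = N t) : {μ : ℝ | ∃ v : P ⊕ S → ℝ, v ≠ 0 ∧
        ((blockGraph N).adjMatrix ℝ).mulVec v = μ • v}
      = {(Fintype.card P : ℝ) - 1 + l, (l : ℝ) - 1, -(l : ℝ), 0} := by
  have : Nonempty P := ⟨a⟩
  ext θ
  simp only [Set.mem_ofPred_eq, Set.mem_insert_iff, Set.mem_singleton_iff]
  constructor
  · rintro ⟨v, hv, h⟩
    exact eig_mem hr hl hv h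
  · rintro (h | h | h | h)
    · subst h; exact eig_top hr hl (by omega)
    · subst h; exact eig_mid hr hl hab hl0
    · subst h; exact eig_neg hr hl (by omega)
    · subst h; exact eig_zero hst hN

theorem spectrum_ncard {a b : P} (hab : a ≠ b) (hl0 : 1 < l) {s t : S} (hst : s ≠ t)
    (hN : N s = N t) : {μ : ℝ | ∃ v : P ⊕ S → ℝ, v ≠ 0 ∧
      ((blockGraph N).adjMatrix ℝ).mulVec v = μ • v}.ncard = 4 := by
  rw [spectrum_eq hr hl hab hl0 hst hN]
  have hl1 : (1 : ℝ) < l := by exact_mod_cast hl0
  have hp : (1 : ℝ) ≤ Fintype.card P := by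
    have : Nonempty P := ⟨a⟩
    exact_mod_cast Fintype.card_pos
  rw [Set.ncard_insert_of_notMem, Set.ncard_insert_of_notMem, Set.ncard_pair]
  · intro h; linarith
  · simp only [Set.mem_insert_iff, Set.mem_singleton_iff, not_or]
    constructor <;> intro h <;> linarith
  · simp only [Set.mem_insert_iff, Set.mem_singleton_iff, not_or]
    refine ⟨?_, ?_, ?_⟩ <;> intro h <;> linarith

omit hr hl in
/-- connected, of diameter `3` -/
theorem connected_diam {N : S → Finset P} (hne : ∀ s, (N s).Nonempty) {s t : S}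
    (hdisj : Disjoint (N s) (N t)) : (blockGraph N).Connected ∧ (blockGraph N).diam = 3 := by
  have hpp : ∀ x y : P, ∃ w : (blockGraph N).Walk (Sum.inl x) (Sum.inl y), w.length ≤ 1 := by
    intro x y
    by_cases h : x = y
    · subst h; exact ⟨SimpleGraph.Walk.nil, by simp⟩
    · exact ⟨SimpleGraph.Walk.cons ((adj_ll N x y).2 h) SimpleGraph.Walk.nil, by simp⟩
  have hwalk : ∀ a b : P ⊕ S, ∃ w : (blockGraph N).Walk a b, w.length ≤ 3 := by
    rintro (x | r) (y | q)
    · obtain ⟨w, hw⟩ := hpp x y
      exact ⟨w, by omega⟩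
    · obtain ⟨y, hy⟩ := hne q
      obtain ⟨w, hw⟩ := hpp x y
      refine ⟨w.concat ((adj_lr N y q).2 hy), ?_⟩
      rw [SimpleGraph.Walk.length_concat]; omega
    · obtain ⟨x, hx⟩ := hne r
      obtain ⟨w, hw⟩ := hpp x y
      refine ⟨SimpleGraph.Walk.cons ((adj_rl N x r).2 hx) w, ?_⟩
      rw [SimpleGraph.Walk.length_cons]; omega
    · obtain ⟨x, hx⟩ := hne r
      obtain ⟨y, hy⟩ := hne q
      obtain ⟨w, hw⟩ := hpp x y
      refine ⟨(SimpleGraph.Walk.cons ((adj_rl N x r).2 hx) w).concat ((adj_lr N y q).2 hy), ?_⟩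
      rw [SimpleGraph.Walk.length_concat, SimpleGraph.Walk.length_cons]; omega
  have hconn : (blockGraph N).Connected := by
    have : Nonempty (P ⊕ S) := ⟨Sum.inr s⟩
    exact ⟨fun a b => ⟨(hwalk a b).choose⟩⟩
  refine ⟨hconn, ?_⟩
  have h1 : (blockGraph N).ediam ≤ 3 := by
    apply SimpleGraph.ediam_le_of_edist_le
    intro a b
    obtain ⟨w, hw⟩ := hwalk a b
    refine (SimpleGraph.edist_le w).trans ?_
    exact_mod_cast hw
  have h2 : 2 < (blockGraph N).edist (Sum.inr s) (Sum.inr t) := by
    rw [SimpleGraph.two_lt_edist_iff]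
    have hst : s ≠ t := by
      rintro rfl
      obtain ⟨x, hx⟩ := hne s
      exact (Finset.disjoint_left.1 hdisj hx) hx
    refine ⟨fun h => hst (Sum.inr_injective h), fun h => h, ?_⟩
    rw [Set.eq_empty_iff_forall_notMem]
    rintro (x | r) h
    · rw [SimpleGraph.mem_commonNeighbors] at h
      exact (Finset.disjoint_left.1 hdisj h.1) h.2
    · rw [SimpleGraph.mem_commonNeighbors] at h
      exact h.1
  have h3 : (3 : ℕ∞) ≤ (blockGraph N).edist (Sum.inr s) (Sum.inr t) := by
    have : (3 : ℕ∞) = 2 + 1 := by norm_num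
    rw [this]
    exact Order.add_one_le_of_lt h2
  have h4 : (blockGraph N).ediam = 3 :=
    le_antisymm h1 (h3.trans SimpleGraph.edist_le_ediam)
  rw [SimpleGraph.diam, h4]
  rfl

end general

/-- the blocks: every nonempty subset of `Fin (k + 2)` once, the whole set once more (indexed by
the empty set), and `4 ^ k` further copies of every singleton -/
def blocks (k : ℕ) : Finset (Fin (k + 2)) ⊕ (Fin (k + 2) × Fin (4 ^ k)) → Finset (Fin (k + 2)) :=
  Sum.elim (fun T => if T = ∅ then univ else T) (fun p => {p.1})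

theorem blocks_nonempty (k : ℕ) (s) : (blocks k s).Nonempty := by
  rcases s with T | p
  · simp only [blocks, Sum.elim_inl]
    by_cases h : T = ∅
    · rw [if_pos h]; exact ⟨0, Finset.mem_univ _⟩
    · rw [if_neg h]; exact Finset.nonempty_iff_ne_empty.2 h
  · simp [blocks]

theorem count_supersets {n : ℕ} (A : Finset (Fin n)) :
    (univ.filter fun T : Finset (Fin n) => A ⊆ T).card = 2 ^ (n - A.card) := by
  have h1 : (univ.filter fun T : Finset (Fin n) => A ⊆ T) = Finset.Icc A univ := by
    ext T; simp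
  rw [h1, Finset.card_Icc_finset (Finset.subset_univ A)]
  simp

theorem card_filter_sum {α β : Type} [Fintype α] [Fintype β] (p : α ⊕ β → Prop)
    [DecidablePred p] : (univ.filter p).card
      = (univ.filter fun a => p (Sum.inl a)).card + (univ.filter fun b => p (Sum.inr b)).card := by
  simp only [Finset.card_filter, Fintype.sum_sum_type]

theorem blocks_inl (k : ℕ) (A : Finset (Fin (k + 2))) (hA : A.Nonempty) :
    (univ.filter fun T : Finset (Fin (k + 2)) => A ⊆ (if T = ∅ then univ else T)).card
      = 2 ^ (k + 2 - A.card) + 1 := by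
  have h1 : (univ.filter fun T : Finset (Fin (k + 2)) => A ⊆ (if T = ∅ then univ else T))
      = insert ∅ (univ.filter fun T : Finset (Fin (k + 2)) => A ⊆ T) := by
    ext T
    simp only [Finset.mem_filter, Finset.mem_univ, true_and, Finset.mem_insert]
    by_cases h : T = ∅
    · simp [h]
    · simp [h]
  rw [h1, Finset.card_insert_of_notMem, count_supersets]
  simp only [Finset.mem_filter, Finset.mem_univ, true_and]
  intro h
  exact hA.ne_empty (Finset.subset_empty.1 h)

theorem blocks_r (k : ℕ) (x : Fin (k + 2)) :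
    (univ.filter fun s => x ∈ blocks k s).card = (2 ^ k + 1) ^ 2 := by
  rw [card_filter_sum]
  have h1 : (univ.filter fun T : Finset (Fin (k + 2)) => x ∈ blocks k (Sum.inl T)).card
      = 2 ^ (k + 1) + 1 := by
    have := blocks_inl k {x} (Finset.singleton_nonempty x)
    simp only [Finset.singleton_subset_iff, Finset.card_singleton] at this
    simpa [blocks] using this
  have h2 : (univ.filter fun p : Fin (k + 2) × Fin (4 ^ k) => x ∈ blocks k (Sum.inr p)).card
      = 4 ^ k := by
    have h3 : (univ.filter fun p : Fin (k + 2) × Fin (4 ^ k) => x ∈ blocks k (Sum.inr p))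
        = ({x} : Finset (Fin (k + 2))) ×ˢ (univ : Finset (Fin (4 ^ k))) := by
      ext p
      simp only [blocks, Sum.elim_inr, Finset.mem_filter, Finset.mem_univ, true_and,
        Finset.mem_singleton, Finset.mem_product, and_true]
      exact eq_comm
    rw [h3, Finset.card_product]
    simp
  rw [h1, h2]
  have : 4 ^ k = 2 ^ k * 2 ^ k := by
    rw [← mul_pow]; norm_num
  rw [this, pow_succ]
  ring

theorem blocks_l (k : ℕ) (x y : Fin (k + 2)) (hxy : x ≠ y) :
    (univ.filter fun s => x ∈ blocks k s ∧ y ∈ blocks k s).card = 2 ^ k + 1 := by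
  rw [card_filter_sum]
  have h1 : (univ.filter fun T : Finset (Fin (k + 2)) =>
      x ∈ blocks k (Sum.inl T) ∧ y ∈ blocks k (Sum.inl T)).card = 2 ^ k + 1 := by
    have := blocks_inl k {x, y} ⟨x, by simp⟩
    rw [Finset.card_pair hxy] at this
    simp only [Finset.insert_subset_iff, Finset.singleton_subset_iff] at this
    simpa [blocks] using this
  have h2 : (univ.filter fun p : Fin (k + 2) × Fin (4 ^ k) =>
      x ∈ blocks k (Sum.inr p) ∧ y ∈ blocks k (Sum.inr p)).card = 0 := by
    rw [Finset.card_eq_zero, Finset.filter_eq_empty_iff]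
    rintro p - ⟨h3, h4⟩
    simp only [blocks, Sum.elim_inr, Finset.mem_singleton] at h3 h4
    exact hxy (h3.trans h4.symm)
  rw [h1, h2]

/-- a graph is split if its vertex set is the union of a clique and an independent set -/
def IsSplit {V : Type} (G : SimpleGraph V) : Prop :=
  ∃ C : Set V, G.IsClique C ∧ ∀ a ∉ C, ∀ b ∉ C, ¬ G.Adj a b

open Classical in
/-- the set of (real) eigenvalues of the adjacency matrix of a graph -/
def eigenvalueSet {V : Type} [Fintype V] (G : SimpleGraph V) : Set ℝ :=
  {μ : ℝ | ∃ v : V → ℝ, v ≠ 0 ∧ (G.adjMatrix ℝ).mulVec v = μ • v}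

/-- a `3`-extremal graph: connected, of diameter exactly `3`, with exactly `4` distinct adjacency
eigenvalues -/
def IsThreeExtremal {V : Type} [Fintype V] (G : SimpleGraph V) : Prop :=
  G.Connected ∧ G.diam = 3 ∧ (eigenvalueSet G).ncard = 4

/-- the number of distinct vertex degrees -/
noncomputable def numDegrees {V : Type} (G : SimpleGraph V) : ℕ :=
  (Set.range fun v => (G.neighborSet v).ncard).ncard

theorem degree_block {P S : Type} [Fintype P] [DecidableEq P] (N : S → Finset P) (s : S) :
    ((blockGraph N).neighborSet (Sum.inr s)).ncard = (N s).card := by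
  have : (blockGraph N).neighborSet (Sum.inr s) = Sum.inl '' (N s : Set P) := by
    ext (x | r)
    · rw [SimpleGraph.mem_neighborSet]
      constructor
      · intro h; exact ⟨x, h, rfl⟩
      · rintro ⟨y, hy, h⟩
        rw [← h]; exact hy
    · rw [SimpleGraph.mem_neighborSet]
      constructor
      · intro h; exact h.elim
      · rintro ⟨y, -, h⟩
        cases h
  rw [this, Set.ncard_image_of_injective _ Sum.inl_injective, Set.ncard_coe_finset]

/-- **Theorem.** For every `c` there is a `3`-extremal split graph with more than `c` distinct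
vertex degrees. So there is no constant bounding the number of distinct degrees of all
`3`-extremal split graphs (Q1), and `3` is not such a bound (Q2). -/
theorem result : ∀ c : ℕ, ∃ (V : Type) (_ : Fintype V) (G : SimpleGraph V),
    IsSplit G ∧ IsThreeExtremal G ∧ c < numDegrees G := by
  intro c
  refine ⟨Fin (c + 2) ⊕ (Finset (Fin (c + 2)) ⊕ (Fin (c + 2) × Fin (4 ^ c))), inferInstance,
    blockGraph (blocks c), ?_, ?_, ?_⟩
  · refine ⟨Set.range Sum.inl, ?_, ?_⟩
    · intro a ha b hb h
      obtain ⟨x, hx⟩ := ha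
      obtain ⟨y, hy⟩ := hb
      subst hx
      subst hy
      exact (adj_ll _ x y).2 (fun h' => h (by rw [h']))
    · intro a ha b hb h
      rcases a with x | s
      · exact ha ⟨x, rfl⟩
      · rcases b with y | t
        · exact hb ⟨y, rfl⟩
        · exact h
  · have h01 : (0 : Fin (c + 2)) ≠ 1 := by
      intro h
      have := congrArg Fin.val h
      simp at this
    have h4 : 0 < 4 ^ c := by positivity
    have hd : Disjoint (blocks c (Sum.inr (0, ⟨0, h4⟩))) (blocks c (Sum.inr (1, ⟨0, h4⟩))) := by
      simp only [blocks, Sum.elim_inr, Finset.disjoint_singleton]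
      exact h01
    obtain ⟨hc, hdiam⟩ := connected_diam (blocks_nonempty c) hd
    refine ⟨hc, hdiam, ?_⟩
    have hs := spectrum_ncard (blocks_r c) (blocks_l c) h01
      (by have : 0 < 2 ^ c := by positivity
          omega) (s := Sum.inl {0}) (t := Sum.inr (0, ⟨0, h4⟩)) (by simp) (by simp [blocks])
    refine Eq.trans ?_ hs
    unfold eigenvalueSet
    have e : ∀ (i1 i2 : DecidableRel (blockGraph (blocks c)).Adj),
        @SimpleGraph.adjMatrix ℝ _ (blockGraph (blocks c)) i1 _ _
          = @SimpleGraph.adjMatrix ℝ _ (blockGraph (blocks c)) i2 _ _ := by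
      intro i1 i2
      rw [Subsingleton.elim i1 i2]
    rw [e _ (instDecidableRelSumAdjBlockGraph (blocks c))]
  · have h1 : ((fun j : ℕ => j + 1) '' (Set.Iio (c + 2))) ⊆
        Set.range fun v => ((blockGraph (blocks c)).neighborSet v).ncard := by
      rintro _ ⟨j, hj, rfl⟩
      have hj' : j + 1 ≤ (univ : Finset (Fin (c + 2))).card := by
        rw [Finset.card_univ, Fintype.card_fin]
        exact hj
      obtain ⟨T, -, hT⟩ := Finset.exists_subset_card_eq hj'
      refine ⟨Sum.inr (Sum.inl T), ?_⟩
      simp only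
      rw [degree_block]
      have hT0 : T ≠ ∅ := by
        rintro rfl
        simp at hT
      simp only [blocks, Sum.elim_inl, if_neg hT0]
      exact hT
    have h2 := Set.ncard_le_ncard h1 (Set.finite_range _)
    rw [Set.ncard_image_of_injective _ (add_left_injective 1)] at h2
    have h3 : (Set.Iio (c + 2)).ncard = c + 2 := by
      rw [← Finset.coe_Iio, Set.ncard_coe_finset, Nat.card_Iio]
    unfold numDegrees
    omega

end Pool.Agent.Results.MP_6460d1_co.ManyDegrees
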